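import Mathlib
import Pool.Agent.Hhelper40.JuntaAverage

/-!
Junta theorem for sparse Boolean functions with near-minimal total influence: the corrected form
of the conjecture, with an absolute constant in the exponent.
-/

set_option autoImplicit false

namespace Pool.Agent.Results.MP_5036fd_co.JuntaTheorem

open Real

/-- `x ⊕ e_i`: the point `x` with coordinate `i` flipped. -/
def flip {ι : Type*} [DecidableEq ι] (i : ι) (x : ι → Bool) : ι → Bool :=
  Function.update x i (!(x i))

/-- The probability of the event `P` for `x` uniform on the cube `{0,1}^ι`. -/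
noncomputable def prob {ι : Type*} [Fintype ι] (P : (ι → Bool) → Prop) : ℝ :=
  ({x : ι → Bool | P x}.ncard : ℝ) / 2 ^ Fintype.card ι

/-- `μ(f) = Pr[f(x) = 1]`. -/
noncomputable def mean {ι : Type*} [Fintype ι] (f : (ι → Bool) → Bool) : ℝ :=
  prob (fun x => f x = true)

/-- The total influence `I(f) = ∑ i, Pr[f(x) ≠ f(x ⊕ e_i)]`. -/
noncomputable def totalInfluence {ι : Type*} [Fintype ι] [DecidableEq ι]
    (f : (ι → Bool) → Bool) : ℝ :=
  ∑ i, prob (fun x => f x ≠ f (flip i x))

open Pool.Agent.Hhelper40.Junta (E cav dd Inv phi avg)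

section

variable {ι : Type*} [DecidableEq ι]

lemma flip_eq (i : ι) : flip i = Pool.Agent.Hhelper40.Junta.flip i := rfl

variable [Fintype ι]

open scoped Classical in
lemma prob_eq (P : (ι → Bool) → Prop) :
    prob P = E (fun x => if P x then (1 : ℝ) else 0) := by
  unfold prob E
  rw [Finset.sum_boole]
  congr 2
  rw [Set.ncard_eq_toFinset_card', Set.toFinset_ofPred]

/-- real-valued indicator -/
noncomputable def ind (f : (ι → Bool) → Bool) (x : ι → Bool) : ℝ := if f x = true then 1 else 0

omit [DecidableEq ι] [Fintype ι] in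
lemma ind_01 (f : (ι → Bool) → Bool) (x : ι → Bool) : ind f x = 0 ∨ ind f x = 1 := by
  unfold ind
  by_cases h : f x = true <;> simp [h]

lemma mean_eq (f : (ι → Bool) → Bool) : mean f = E (ind f) := by
  unfold mean
  rw [prob_eq]
  congr 1
  funext x
  unfold ind
  by_cases h : f x = true <;> simp [h]

lemma prob_ne (f g : (ι → Bool) → Bool) :
    prob (fun x => f x ≠ g x) =
      E (fun x => (1 - ind g x) * ind f x + ind g x * (1 - ind f x)) := by
  rw [prob_eq]
  congr 1
  funext x
  unfold ind
  cases hf : f x <;> cases hg : g x <;> simp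

lemma dd_eq (f : (ι → Bool) → Bool) (i : ι) :
    2 * E (fun x => |dd i (ind f) x|) = prob (fun x => f x ≠ f (flip i x)) := by
  rw [prob_eq, ← Pool.Agent.Hhelper40.Junta.E_const_mul]
  congr 1
  funext x
  unfold dd ind
  rw [← flip_eq]
  cases hf : f x <;> cases hg : f (flip i x) <;> simp
  rw [abs_of_neg (by norm_num)]
  norm_num

omit [Fintype ι] in
lemma dependsOn_of_inv {β : Type*} {T : Finset ι} {G : (ι → Bool) → β}
    (hG : ∀ u ∈ T, ∀ x, G (flip u x) = G x) :
    ∀ x y : ι → Bool, (∀ i, i ∉ T → x i = y i) → G x = G y := by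
  induction T using Finset.induction_on generalizing G with
  | empty =>
    intro x y h
    have : x = y := funext (fun i => h i (by simp))
    rw [this]
  | insert a T ha ih =>
    intro x y h
    have ih' := ih (fun u hu => hG u (Finset.mem_insert_of_mem hu))
    by_cases hxy : x a = y a
    · apply ih'
      intro i hi
      by_cases hia : i = a
      · rw [hia, hxy]
      · exact h i (by simp [hia, hi])
    · rw [← hG a (Finset.mem_insert_self a T) x]
      apply ih'
      intro i hi
      by_cases hia : i = a
      · subst hia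
        unfold flip
        rw [Function.update_self]
        cases hx : x i <;> cases hy : y i <;> simp_all
      · unfold flip
        rw [Function.update_of_ne hia]
        exact h i (by simp [hia, hi])

end

/-- **Junta theorem for sparse functions of near-minimal total influence.** -/
theorem result (M ε : ℝ) (hM : 0 < M) (hε : 0 < ε) (n : ℕ) (f : (Fin n → Bool) → Bool)
    (hμ : 0 < mean f)
    (hI : totalInfluence f ≤ 2 * mean f * (Real.logb 2 (1 / mean f) + M)) :
    ∃ (J : Finset (Fin n)) (g : (Fin n → Bool) → Bool),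
      DependsOn g (J : Set (Fin n)) ∧
      (J.card : ℝ) ≤ 404 * Real.logb 2 (1 / mean f) * 2 ^ (120 * M / ε) ∧
      prob (fun x => f x ≠ g x) ≤ ε * mean f := by
  have hl2 : 0 < log 2 := Real.log_pos (by norm_num)
  have hl2' : 0.6931471803 < log 2 := Real.log_two_gt_d9
  set μ := mean f with hμdef
  have hE : E (ind f) = μ := (mean_eq f).symm
  have hμ1 : μ ≤ 1 := by
    rw [← hE, ← Pool.Agent.Hhelper40.Junta.E_const (ι := Fin n) (1 : ℝ)]
    apply Pool.Agent.Hhelper40.Junta.E_mono
    intro x
    rcases ind_01 f x with h | h <;> rw [h] <;> norm_num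
  set k := Real.logb 2 (1 / μ) with hk
  have hk0 : 0 ≤ k := Real.logb_nonneg (by norm_num) (by rw [le_div_iff₀ hμ]; linarith)
  have hB0 : 0 ≤ 404 * k * (2 : ℝ) ^ (120 * M / ε) := by positivity
  -- trivial cases
  by_cases hε1 : 1 ≤ ε
  · refine ⟨∅, fun _ => false, fun x y _ => rfl, by simpa using hB0, ?_⟩
    have : prob (fun x => f x ≠ false) = μ := by
      rw [hμdef]
      unfold mean
      congr 1
      funext x
      cases f x <;> simp
    rw [this]
    nlinarith
  push Not at hε1
  by_cases hμε : 1 - μ ≤ ε * μ
  · refine ⟨∅, fun _ => true, fun x y _ => rfl, by simpa using hB0, ?_⟩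
    have : prob (fun x => f x ≠ true) = 1 - μ := by
      have h0 := Pool.Agent.Hhelper40.Junta.E_const (ι := Fin n) (1 : ℝ)
      have h1 := Pool.Agent.Hhelper40.Junta.E_sub (fun _ : Fin n → Bool => (1 : ℝ)) (ind f)
      rw [h0, hE] at h1
      rw [prob_ne, ← h1]
      congr 1
      funext x
      unfold ind
      cases f x <;> simp
    rw [this]
    exact hμε
  push Not at hμε
  -- `k ≥ ε`
  have hkε : ε ≤ k := by
    rw [hk, Real.le_logb_iff_rpow_le (by norm_num) (by positivity)]
    have h1 : ((1 : ℝ) + 1) ^ ε ≤ 1 + ε * 1 :=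
      rpow_one_add_le_one_add_mul_self (by norm_num) hε.le hε1.le
    have h2 : (2 : ℝ) = 1 + 1 := by norm_num
    rw [h2]
    refine h1.trans ?_
    rw [le_div_iff₀ hμ]
    nlinarith
  -- the set of coordinates
  set L := 6 + 82 * M / ε with hL
  have hMε : 0 < M / ε := by positivity
  have hL6 : 6 < L := by
    have : 82 * M / ε = 82 * (M / ε) := by ring
    rw [hL, this]; linarith
  set τ := Real.exp (-L) with hτ
  have hτ0 : 0 < τ := Real.exp_pos _
  have hlogτ : - log τ = L := by rw [hτ, Real.log_exp]; ring
  classical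
  set T : Finset (Fin n) := Finset.univ.filter (fun i => E (fun x => |dd i (ind f) x|) ≤ μ * τ)
    with hT
  have hphi : - phi (E (ind f)) / log 2 = μ * k := by
    rw [hE, hk]
    unfold phi
    rw [Real.logb, one_div, Real.log_inv]
    ring
  have hsum : ∑ i, E (fun x => |dd i (ind f) x|) = totalInfluence f / 2 := by
    unfold totalInfluence
    rw [Finset.sum_div]
    apply Finset.sum_congr rfl
    intro i _
    rw [← dd_eq]
    ring
  have hsum' : ∑ i, E (fun x => |dd i (ind f) x|) ≤ μ * (k + M) := by
    rw [hsum]; linarith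
  have hcore := Pool.Agent.Hhelper40.Junta.core (ind_01 f) (by rw [hE]; exact hμ) T τ (μ * M) hτ0
    (by
      intro u hu
      rw [hE]
      exact (Finset.mem_filter.1 hu).2)
    (by rw [hlogτ]; exact hL6.le)
    (by rw [hphi]; linarith)
    (by positivity)
  have hF : E (ind f) - E (fun x => (cav T (ind f) x) ^ 2) ≤ ε * μ / 2 := by
    rw [hlogτ] at hcore
    have h1 : L - 6 = 82 * (M / ε) := by rw [hL]; ring
    rw [h1] at hcore
    have h2 : (E (ind f) - E (fun x => (cav T (ind f) x) ^ 2)) * (82 * (M / ε)) ≤
        (ε * μ / 2) * (82 * (M / ε)) := by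
      refine hcore.trans (le_of_eq ?_)
      field_simp
      ring
    exact le_of_mul_le_mul_right h2 (by positivity)
  -- the approximating function
  set F := cav T (ind f) with hFdef
  have hFinv : ∀ u ∈ T, ∀ x, F (flip u x) = F x := by
    intro u hu x
    rw [flip_eq]
    exact Pool.Agent.Hhelper40.Junta.run_inv_of_mem (by simpa using hu) (ind f) x
  have hF0 : ∀ x, 0 ≤ F x := Pool.Agent.Hhelper40.Junta.cav_nonneg T (by
    intro x
    rcases ind_01 f x with h | h <;> rw [h] <;> norm_num)
  have hF1 : ∀ x, F x ≤ 1 := Pool.Agent.Hhelper40.Junta.cav_le_one T (by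
    intro x
    rcases ind_01 f x with h | h <;> rw [h] <;> norm_num)
  set g : (Fin n → Bool) → Bool := fun x => decide (1 / 2 ≤ F x) with hg
  have hginv : ∀ u ∈ T, ∀ x, g (flip u x) = g x := by
    intro u hu x
    rw [hg]
    simp only
    rw [hFinv u hu x]
  refine ⟨Tᶜ, g, ?_, ?_, ?_⟩
  · intro x y hxy
    apply dependsOn_of_inv hginv
    intro i hi
    exact hxy i (by simpa using hi)
  · -- cardinality
    have h1 : (Tᶜ.card : ℝ) * (μ * τ) ≤ μ * (k + M) := by
      calc (Tᶜ.card : ℝ) * (μ * τ) = ∑ i ∈ Tᶜ, μ * τ := by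
            rw [Finset.sum_const, nsmul_eq_mul]
        _ ≤ ∑ i ∈ Tᶜ, E (fun x => |dd i (ind f) x|) := by
            apply Finset.sum_le_sum
            intro i hi
            have : ¬ (E (fun x => |dd i (ind f) x|) ≤ μ * τ) := by
              intro h
              exact (Finset.mem_compl.1 hi) (Finset.mem_filter.2 ⟨Finset.mem_univ i, h⟩)
            exact (not_le.1 this).le
        _ ≤ ∑ i, E (fun x => |dd i (ind f) x|) := by
            apply Finset.sum_le_sum_of_subset_of_nonneg (Finset.subset_univ _)
            intro i _ _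
            exact Pool.Agent.Hhelper40.Junta.E_nonneg (fun x => abs_nonneg _)
        _ ≤ _ := hsum'
    have h2 : (Tᶜ.card : ℝ) ≤ (k + M) * Real.exp L := by
      have h3 : τ * Real.exp L = 1 := by
        rw [hτ, ← Real.exp_add]; simp
      have h4 : (Tᶜ.card : ℝ) * τ ≤ k + M := by
        have : μ * ((Tᶜ.card : ℝ) * τ) ≤ μ * (k + M) := by linarith
        exact le_of_mul_le_mul_left this hμ
      calc (Tᶜ.card : ℝ) = (Tᶜ.card : ℝ) * τ * Real.exp L := by
            rw [mul_assoc, h3, mul_one]
        _ ≤ (k + M) * Real.exp L :=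
            mul_le_mul_of_nonneg_right h4 (Real.exp_pos L).le
    have h5 : k + M ≤ k * Real.exp (M / ε) := by
      have h6 : M ≤ (M / ε) * k := by
        calc M = (M / ε) * ε := by field_simp
          _ ≤ (M / ε) * k := mul_le_mul_of_nonneg_left hkε hMε.le
      have h7 : M / ε + 1 ≤ Real.exp (M / ε) := Real.add_one_le_exp _
      nlinarith
    have h8 : Real.exp 6 ≤ 404 := by
      have h9 : Real.exp 6 = (Real.exp 1) ^ 6 := by
        rw [← Real.exp_nat_mul]; norm_num
      rw [h9]
      have h10 : Real.exp 1 < 2.7182818286 := Real.exp_one_lt_d9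
      calc (Real.exp 1) ^ 6 ≤ (2.7182818286 : ℝ) ^ 6 :=
            pow_le_pow_left₀ (Real.exp_pos 1).le h10.le 6
        _ ≤ 404 := by norm_num
    have h11 : Real.exp (83 * (M / ε)) ≤ (2 : ℝ) ^ (120 * M / ε) := by
      rw [Real.rpow_def_of_pos (by norm_num), Real.exp_le_exp]
      have : log 2 * (120 * M / ε) = (120 * log 2) * (M / ε) := by ring
      rw [this]
      apply mul_le_mul_of_nonneg_right _ hMε.le
      linarith
    calc (Tᶜ.card : ℝ) ≤ (k + M) * Real.exp L := h2
      _ ≤ (k * Real.exp (M / ε)) * Real.exp L :=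
          mul_le_mul_of_nonneg_right h5 (Real.exp_pos L).le
      _ = k * Real.exp 6 * Real.exp (83 * (M / ε)) := by
          have : Real.exp (M / ε) * Real.exp L = Real.exp 6 * Real.exp (83 * (M / ε)) := by
            rw [← Real.exp_add, ← Real.exp_add, hL]
            congr 1
            ring
          rw [mul_assoc, this, mul_assoc]
      _ ≤ k * 404 * (2 : ℝ) ^ (120 * M / ε) := by
          apply mul_le_mul _ h11 (Real.exp_pos _).le (by positivity)
          exact mul_le_mul_of_nonneg_left h8 hk0
      _ = 404 * k * (2 : ℝ) ^ (120 * M / ε) := by ring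
  · -- approximation
    have hinvg : ∀ u ∈ T.toList, Inv u (ind g) := by
      intro u hu x
      unfold ind
      have := hginv u (by simpa using hu) x
      rw [flip_eq] at this
      rw [this]
    have hinvg' : ∀ u ∈ T.toList, Inv u (fun x => 1 - ind g x) := by
      intro u hu x
      have := hinvg u hu x
      simp only
      rw [this]
    have e1 : E (fun x => (1 - ind g x) * ind f x) = E (fun x => (1 - ind g x) * F x) :=
      (Pool.Agent.Hhelper40.Junta.E_mul_run hinvg' (ind f)).symm
    have e2 : E (fun x => ind g x * ind f x) = E (fun x => ind g x * F x) :=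
      (Pool.Agent.Hhelper40.Junta.E_mul_run hinvg (ind f)).symm
    have e3 : E (fun x => ind g x * (1 - ind f x)) = E (fun x => ind g x * (1 - F x)) := by
      have a1 : (fun x => ind g x * (1 - ind f x)) = fun x => ind g x - ind g x * ind f x := by
        funext x; ring
      have a2 : (fun x => ind g x * (1 - F x)) = fun x => ind g x - ind g x * F x := by
        funext x; ring
      rw [a1, a2, Pool.Agent.Hhelper40.Junta.E_sub, Pool.Agent.Hhelper40.Junta.E_sub, e2]
    have e4 : prob (fun x => f x ≠ g x) =
        E (fun x => (1 - ind g x) * F x + ind g x * (1 - F x)) := by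
      rw [prob_ne, Pool.Agent.Hhelper40.Junta.E_add, Pool.Agent.Hhelper40.Junta.E_add, e1, e3]
    have e5 : E (fun x => (1 - ind g x) * F x + ind g x * (1 - F x)) ≤
        E (fun x => 2 * (F x - (F x) ^ 2)) := by
      apply Pool.Agent.Hhelper40.Junta.E_mono
      intro x
      have h0 := hF0 x
      have h1 := hF1 x
      by_cases h : 1 / 2 ≤ F x
      · have : ind g x = 1 := by
          have hgx : g x = true := decide_eq_true h
          unfold ind
          rw [if_pos hgx]
        rw [this]
        nlinarith
      · have : ind g x = 0 := by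
          have hgx : g x = false := decide_eq_false h
          unfold ind
          rw [hgx]
          simp
        rw [this]
        push Not at h
        nlinarith
    have e6 : E (fun x => 2 * (F x - (F x) ^ 2)) =
        2 * (E (ind f) - E (fun x => (F x) ^ 2)) := by
      rw [Pool.Agent.Hhelper40.Junta.E_const_mul, Pool.Agent.Hhelper40.Junta.E_sub]
      congr 2
      exact Pool.Agent.Hhelper40.Junta.E_cav T
    rw [e4]
    refine e5.trans ?_
    rw [e6]
    linarith

end Pool.Agent.Results.MP_5036fd_co.JuntaTheorem
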