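import Mathlib

/-!
Disproof of the junta statement with bound `C log(1/μ) 2^{M/ε}`.

The counterexample: on a cube whose coordinates are split into a set of `k₀` coordinates and `t`
blocks of `w` coordinates, let `f x = 1` iff all the first `k₀` coordinates are `1` and no block is
identically `1`.
-/

set_option autoImplicit false

namespace Pool.Agent.Results.MP_5036fd_co.TribesDisproof

/-- `x ⊕ e_i`: the point `x` with coordinate `i` flipped. -/
def flip {ι : Type*} [DecidableEq ι] (i : ι) (x : ι → Bool) : ι → Bool :=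
  Function.update x i (!(x i))

/-- The probability of the event `P` for `x` uniform on the cube `{0,1}^ι`. -/
noncomputable def prob {ι : Type*} [Fintype ι] (P : (ι → Bool) → Prop) : ℝ :=
  ({x : ι → Bool | P x}.ncard : ℝ) / 2 ^ Fintype.card ι

/-- `μ(f) = Pr[f(x) = 1]`. -/
noncomputable def mean {ι : Type*} [Fintype ι] (f : (ι → Bool) → Bool) : ℝ :=
  prob (fun x => f x = true)

/-- The total influence `I(f) = ∑ i, Pr[f(x) ≠ f(x ⊕ e_i)]`. -/
noncomputable def totalInfluence {ι : Type*} [Fintype ι] [DecidableEq ι]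
    (f : (ι → Bool) → Bool) : ℝ :=
  ∑ i, prob (fun x => f x ≠ f (flip i x))

section basic

variable {ι : Type*} [DecidableEq ι]

@[simp] lemma flip_same (i : ι) (x : ι → Bool) : flip i x i = !(x i) := by
  simp [flip]

@[simp] lemma flip_ne {i j : ι} (h : j ≠ i) (x : ι → Bool) : flip i x j = x j := by
  simp [flip, h]

@[simp] lemma flip_flip (i : ι) (x : ι → Bool) : flip i (flip i x) = x := by
  funext j
  by_cases h : j = i
  · subst h; simp
  · simp [h]

lemma flip_injective (i : ι) : Function.Injective (flip i : (ι → Bool) → (ι → Bool)) :=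
  fun x y h => by rw [← flip_flip i x, h, flip_flip]

variable [Fintype ι]

lemma half (c : ι) (Q : (ι → Bool) → Prop) (hQ : ∀ x, Q (flip c x) ↔ Q x) :
    2 * {x | Q x ∧ x c = true}.ncard = {x | Q x}.ncard := by
  have h1 : {x | Q x} = {x | Q x ∧ x c = true} ∪ {x | Q x ∧ x c = false} := by
    ext x
    simp only [Set.mem_ofPred_eq, Set.mem_union]
    cases x c <;> simp
  have hd : Disjoint {x | Q x ∧ x c = true} {x | Q x ∧ x c = false} := by
    rw [Set.disjoint_left]
    rintro x ⟨-, h1⟩ ⟨-, h2⟩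
    rw [h1] at h2
    exact absurd h2 (by decide)
  have h2 : {x | Q x ∧ x c = false} = flip c '' {x | Q x ∧ x c = true} := by
    ext x
    simp only [Set.mem_ofPred_eq, Set.mem_image]
    constructor
    · rintro ⟨h, hx⟩
      exact ⟨flip c x, ⟨(hQ x).2 h, by simp [hx]⟩, flip_flip c x⟩
    · rintro ⟨y, ⟨hy, hyc⟩, rfl⟩
      exact ⟨(hQ y).2 hy, by simp [hyc]⟩
  rw [h1, Set.ncard_union_eq hd, h2, Set.ncard_image_of_injective _ (flip_injective c)]
  ring

lemma cyl (S : Finset ι) (Q : (ι → Bool) → Prop) (hQ : ∀ c ∈ S, ∀ x, Q (flip c x) ↔ Q x) :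
    2 ^ S.card * {x | Q x ∧ ∀ c ∈ S, x c = true}.ncard = {x | Q x}.ncard := by
  induction S using Finset.induction_on with
  | empty => simp
  | insert a S ha ih =>
    have ih' := ih (fun c hc => hQ c (Finset.mem_insert_of_mem hc))
    rw [← ih', Finset.card_insert_of_notMem ha]
    have hh := half a (fun x => Q x ∧ ∀ c ∈ S, x c = true) (by
      intro x
      have h1 := hQ a (Finset.mem_insert_self a S) x
      have h2 : (∀ c ∈ S, flip a x c = true) ↔ ∀ c ∈ S, x c = true := by
        apply forall₂_congr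
        intro c hc
        have hca : c ≠ a := fun h => ha (h ▸ hc)
        rw [flip_ne hca]
      rw [h1, h2])
    have h3 : {x | Q x ∧ ∀ c ∈ insert a S, x c = true} =
        {x | (Q x ∧ ∀ c ∈ S, x c = true) ∧ x a = true} := by
      ext x
      simp only [Finset.mem_insert, forall_eq_or_imp, Set.mem_ofPred_eq]
      tauto
    rw [h3, ← hh]
    ring

end basic

section tribes

variable {k t w : ℕ}

abbrev Idx (k t w : ℕ) := Fin k ⊕ (Fin t × Fin w)

/-- all the first `k` coordinates are `1` -/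
def Base (x : Idx k t w → Bool) : Prop := ∀ a : Fin k, x (Sum.inl a) = true

/-- block `b` is not identically `1` -/
def Blk (b : Fin t) (x : Idx k t w → Bool) : Prop := ∃ c : Fin w, x (Sum.inr (b, c)) = false

lemma not_blk (b : Fin t) (x : Idx k t w → Bool) :
    ¬ Blk b x ↔ ∀ c : Fin w, x (Sum.inr (b, c)) = true := by
  simp [Blk]

/-- the coordinates of block `b` -/
def coords (b : Fin t) : Finset (Idx k t w) :=
  (Finset.univ : Finset (Fin w)).map ⟨fun c => Sum.inr (b, c), fun c d h => by simpa using h⟩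

lemma coords_card (b : Fin t) : (coords b : Finset (Idx k t w)).card = w := by
  simp [coords]

lemma mem_coords (b : Fin t) (i : Idx k t w) : i ∈ coords b ↔ ∃ c, i = Sum.inr (b, c) := by
  simp only [coords, Finset.mem_map, Finset.mem_univ, true_and, Function.Embedding.coeFn_mk]
  exact ⟨fun ⟨c, h⟩ => ⟨c, h.symm⟩, fun ⟨c, h⟩ => ⟨c, h.symm⟩⟩

lemma blk_flip_of_ne {b b' : Fin t} (h : b ≠ b') (c : Fin w) (x : Idx k t w → Bool) :
    Blk b (flip (Sum.inr (b', c)) x) ↔ Blk b x := by
  unfold Blk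
  apply exists_congr
  intro d
  rw [flip_ne]
  simp [h]

lemma blk_flip_inl {b : Fin t} (a : Fin k) (x : Idx k t w → Bool) :
    Blk b (flip (Sum.inl a) x) ↔ Blk b x := by
  unfold Blk
  apply exists_congr
  intro d
  rw [flip_ne]
  simp

lemma base_flip_inr (b : Fin t) (c : Fin w) (x : Idx k t w → Bool) :
    Base (flip (Sum.inr (b, c)) x) ↔ Base x := by
  unfold Base
  apply forall_congr'
  intro a
  rw [flip_ne]
  simp

/-- removing a block condition -/
lemma one_block (b : Fin t) (Q : (Idx k t w → Bool) → Prop)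
    (hQ : ∀ c : Fin w, ∀ x, Q (flip (Sum.inr (b, c)) x) ↔ Q x) :
    2 ^ w * {x | Q x ∧ Blk b x}.ncard = (2 ^ w - 1) * {x | Q x}.ncard := by
  have h := cyl (coords b) Q (by
    intro i hi x
    obtain ⟨c, rfl⟩ := (mem_coords b i).1 hi
    exact hQ c x)
  rw [coords_card] at h
  have h1 : {x | Q x ∧ ∀ c ∈ coords b, x c = true} = {x | Q x ∧ ¬ Blk b x} := by
    ext x
    simp only [Set.mem_ofPred_eq, not_blk, mem_coords]
    constructor
    · rintro ⟨h1, h2⟩
      exact ⟨h1, fun c => h2 _ ⟨c, rfl⟩⟩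
    · rintro ⟨h1, h2⟩
      exact ⟨h1, by rintro _ ⟨c, rfl⟩; exact h2 c⟩
  rw [h1] at h
  have h2 : {x | Q x}.ncard = {x | Q x ∧ Blk b x}.ncard + {x | Q x ∧ ¬ Blk b x}.ncard := by
    rw [← Set.ncard_union_eq]
    · congr 1
      ext x
      simp only [Set.mem_ofPred_eq, Set.mem_union]
      tauto
    · rw [Set.disjoint_left]
      rintro x ⟨-, h1⟩ ⟨-, h2⟩
      exact h2 h1
  have h3 : 1 ≤ 2 ^ w := Nat.one_le_two_pow
  obtain ⟨N, hN⟩ : ∃ N, 2 ^ w = N + 1 := ⟨2 ^ w - 1, by omega⟩
  rw [hN] at h ⊢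
  rw [h2] at h ⊢
  simp only [Nat.add_sub_cancel]
  nlinarith

lemma blocks (T : Finset (Fin t)) (Q : (Idx k t w → Bool) → Prop)
    (hQ : ∀ b ∈ T, ∀ c : Fin w, ∀ x, Q (flip (Sum.inr (b, c)) x) ↔ Q x) :
    (2 ^ w) ^ T.card * {x | Q x ∧ ∀ b ∈ T, Blk b x}.ncard =
      (2 ^ w - 1) ^ T.card * {x | Q x}.ncard := by
  induction T using Finset.induction_on with
  | empty => simp
  | insert b T hb ih =>
    have ih' := ih (fun c hc => hQ c (Finset.mem_insert_of_mem hc))
    have h1 := one_block b (fun x => Q x ∧ ∀ b ∈ T, Blk b x) (by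
      intro c x
      have h1 := hQ b (Finset.mem_insert_self b T) c x
      have h2 : (∀ b' ∈ T, Blk b' (flip (Sum.inr (b, c)) x)) ↔ ∀ b' ∈ T, Blk b' x := by
        apply forall₂_congr
        intro b' hb'
        have hbb : b' ≠ b := fun h => hb (h ▸ hb')
        rw [blk_flip_of_ne hbb]
      rw [h1, h2])
    have h3 : {x | Q x ∧ ∀ b' ∈ insert b T, Blk b' x} =
        {x | (Q x ∧ ∀ b ∈ T, Blk b x) ∧ Blk b x} := by
      ext x
      simp only [Finset.mem_insert, forall_eq_or_imp, Set.mem_ofPred_eq]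
      tauto
    rw [h3, Finset.card_insert_of_notMem hb, pow_succ, pow_succ, mul_assoc, h1,
      mul_assoc, mul_comm (2 ^ w - 1), ← mul_assoc, ih']
    ring

open Classical in
/-- the function of the counterexample -/
noncomputable def F (x : Idx k t w → Bool) : Bool := decide (Base x ∧ ∀ b, Blk b x)

lemma F_iff (x : Idx k t w → Bool) : F x = true ↔ (Base x ∧ ∀ b, Blk b x) := by
  simp [F]

lemma card_base : 2 ^ k * {x : Idx k t w → Bool | Base x}.ncard =
    2 ^ Fintype.card (Idx k t w) := by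
  have h := cyl (Finset.univ.map ⟨Sum.inl, Sum.inl_injective⟩ : Finset (Idx k t w))
    (fun _ => True) (by simp)
  rw [Finset.card_map, Finset.card_univ, Fintype.card_fin] at h
  have h1 : {x : Idx k t w → Bool | True ∧ ∀ c ∈ (Finset.univ.map ⟨Sum.inl, Sum.inl_injective⟩ :
      Finset (Idx k t w)), x c = true} = {x | Base x} := by
    ext x
    simp [Base]
  have h2 : {x : Idx k t w → Bool | True}.ncard = 2 ^ Fintype.card (Idx k t w) := by
    simp [Set.ncard_univ]
  rw [h1, h2] at h
  exact h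

lemma card_F : (2 ^ w) ^ t * {x : Idx k t w → Bool | F x = true}.ncard =
    (2 ^ w - 1) ^ t * {x : Idx k t w → Bool | Base x}.ncard := by
  have h := blocks (Finset.univ : Finset (Fin t)) (Base : (Idx k t w → Bool) → Prop)
    (fun b _ c x => base_flip_inr b c x)
  rw [Finset.card_univ, Fintype.card_fin] at h
  have h1 : {x : Idx k t w → Bool | Base x ∧ ∀ b ∈ Finset.univ, Blk b x} =
      {x | F x = true} := by
    ext x
    simp [F_iff]
  rw [h1] at h
  exact h

lemma card_infl_inl (a : Fin k) :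
    {x : Idx k t w → Bool | F x ≠ F (flip (Sum.inl a) x)}.ncard =
      2 * {x : Idx k t w → Bool | F x = true}.ncard := by
  set Q : (Idx k t w → Bool) → Prop :=
    fun x => (∀ a', a' ≠ a → x (Sum.inl a') = true) ∧ ∀ b, Blk b x with hQdef
  have h := half (Sum.inl a : Idx k t w) Q (by
      intro x
      simp only [hQdef]
      have h1 : (∀ a', a' ≠ a → flip (Sum.inl a) x (Sum.inl a') = true) ↔
          (∀ a', a' ≠ a → x (Sum.inl a') = true) := by
        apply forall₂_congr
        intro a' ha'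
        rw [flip_ne (by simpa using ha')]
      rw [h1]
      simp only [blk_flip_inl])
  have hF : ∀ x : Idx k t w → Bool, F x = true ↔ (Q x ∧ x (Sum.inl a) = true) := by
    intro x
    rw [F_iff]
    simp only [hQdef, Base]
    constructor
    · rintro ⟨h1, h2⟩
      exact ⟨⟨fun a' _ => h1 a', h2⟩, h1 a⟩
    · rintro ⟨⟨h1, h2⟩, h3⟩
      refine ⟨fun a' => ?_, h2⟩
      by_cases h : a' = a
      · rw [h]; exact h3
      · exact h1 a' h
  have hQ' : ∀ x, Q (flip (Sum.inl a) x) ↔ Q x := by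
    intro x
    simp only [hQdef]
    have h1 : (∀ a', a' ≠ a → flip (Sum.inl a) x (Sum.inl a') = true) ↔
        (∀ a', a' ≠ a → x (Sum.inl a') = true) := by
      apply forall₂_congr
      intro a' ha'
      rw [flip_ne (by simpa using ha')]
    rw [h1]
    simp only [blk_flip_inl]
  have h1 : {x : Idx k t w → Bool | F x ≠ F (flip (Sum.inl a) x)} = {x | Q x} := by
    ext x
    simp only [Set.mem_ofPred_eq]
    have e1 := hF x
    have e2 := hF (flip (Sum.inl a) x)
    rw [hQ', flip_same] at e2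
    by_cases hq : Q x
    · simp only [hq, true_and, iff_true] at e1 e2 ⊢
      cases hx : x (Sum.inl a) <;> simp [hx] at e1 e2 <;> simp [e1, e2]
    · simp only [hq, false_and, iff_false, Bool.not_eq_true] at e1 e2 ⊢
      simp [e1, e2]
  have h2 : {x : Idx k t w → Bool | F x = true} = {x | Q x ∧ x (Sum.inl a) = true} := by
    ext x
    simp only [Set.mem_ofPred_eq]
    exact hF x
  rw [h1, h2, h]

lemma card_infl_inr (b : Fin t) (c : Fin w) :
    (2 ^ w - 1) * {x : Idx k t w → Bool | F x ≠ F (flip (Sum.inr (b, c)) x)}.ncard =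
      2 * {x : Idx k t w → Bool | F x = true}.ncard := by
  -- the condition outside block `b`
  set Q : (Idx k t w → Bool) → Prop := fun x => Base x ∧ ∀ b', b' ≠ b → Blk b' x with hQdef
  have hQ' : ∀ (d : Fin w) (x : Idx k t w → Bool), Q (flip (Sum.inr (b, d)) x) ↔ Q x := by
    intro d x
    simp only [hQdef, base_flip_inr]
    have h1 : (∀ b', b' ≠ b → Blk b' (flip (Sum.inr (b, d)) x)) ↔
        (∀ b', b' ≠ b → Blk b' x) := by
      apply forall₂_congr
      intro b' hb'
      rw [blk_flip_of_ne hb']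
    rw [h1]
  have hF : ∀ x : Idx k t w → Bool, F x = true ↔ (Q x ∧ Blk b x) := by
    intro x
    rw [F_iff]
    simp only [hQdef]
    constructor
    · rintro ⟨h1, h2⟩
      exact ⟨⟨h1, fun b' _ => h2 b'⟩, h2 b⟩
    · rintro ⟨⟨h1, h2⟩, h3⟩
      refine ⟨h1, fun b' => ?_⟩
      by_cases h : b' = b
      · rw [h]; exact h3
      · exact h2 b' h
  have hA := one_block b Q (fun d x => hQ' d x)
  have h2 : {x : Idx k t w → Bool | F x = true} = {x | Q x ∧ Blk b x} := by
    ext x
    simp only [Set.mem_ofPred_eq]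
    exact hF x
  rw [← h2] at hA
  -- pivotal points
  have hB := cyl ((coords b).erase (Sum.inr (b, c)) : Finset (Idx k t w)) Q (by
    intro i hi x
    rw [Finset.mem_erase] at hi
    obtain ⟨d, rfl⟩ := (mem_coords b i).1 hi.2
    exact hQ' d x)
  have hcard : ((coords b).erase (Sum.inr (b, c)) : Finset (Idx k t w)).card = w - 1 := by
    rw [Finset.card_erase_of_mem ((mem_coords b _).2 ⟨c, rfl⟩), coords_card]
  rw [hcard] at hB
  have h3 : {x : Idx k t w → Bool | F x ≠ F (flip (Sum.inr (b, c)) x)} =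
      {x | Q x ∧ ∀ i ∈ ((coords b).erase (Sum.inr (b, c)) : Finset (Idx k t w)), x i = true} := by
    ext x
    simp only [Set.mem_ofPred_eq]
    have e1 := hF x
    have e2 := hF (flip (Sum.inr (b, c)) x)
    rw [hQ'] at e2
    by_cases hq : Q x
    · simp only [hq, true_and] at e1 e2 ⊢
      by_cases hall : ∀ i ∈ ((coords b).erase (Sum.inr (b, c)) : Finset (Idx k t w)), x i = true
      · refine iff_of_true ?_ hall
        have key : ∀ y : Idx k t w → Bool,
            (∀ i ∈ ((coords b).erase (Sum.inr (b, c)) : Finset (Idx k t w)), y i = true) →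
            (Blk b y ↔ y (Sum.inr (b, c)) = false) := by
          intro y hy
          constructor
          · rintro ⟨d, hd⟩
            by_cases hdc : d = c
            · rw [← hdc]; exact hd
            · exfalso
              have := hy (Sum.inr (b, d)) (by
                rw [Finset.mem_erase]
                exact ⟨by simpa using hdc, (mem_coords b _).2 ⟨d, rfl⟩⟩)
              rw [this] at hd
              exact absurd hd (by decide)
          · intro h
            exact ⟨c, h⟩
        rw [key x hall] at e1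
        rw [key (flip (Sum.inr (b, c)) x) (by
          intro i hi
          rw [flip_ne (Finset.ne_of_mem_erase hi)]
          exact hall i hi), flip_same] at e2
        cases hx : x (Sum.inr (b, c)) <;> simp [hx] at e1 e2 <;> simp [e1, e2]
      · refine iff_of_false ?_ hall
        rw [not_not]
        push Not at hall
        obtain ⟨i, hi, hxi⟩ := hall
        rw [Finset.mem_erase] at hi
        obtain ⟨d, rfl⟩ := (mem_coords b i).1 hi.2
        have hd : x (Sum.inr (b, d)) = false := by simpa using hxi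
        have b1 : Blk b x := ⟨d, hd⟩
        have b2 : Blk b (flip (Sum.inr (b, c)) x) := ⟨d, by rw [flip_ne hi.1]; exact hd⟩
        rw [e1.2 b1, e2.2 b2]
    · simp only [hq, false_and, iff_false, Bool.not_eq_true] at e1 e2 ⊢
      simp [e1, e2]
  rw [h3]
  have hw : 1 ≤ w := by
    have := c.isLt
    omega
  obtain ⟨v, rfl⟩ : ∃ v, w = v + 1 := ⟨w - 1, by omega⟩
  simp only [Nat.add_sub_cancel] at hB
  rw [← hB] at hA
  have hpos : 0 < 2 ^ v := by positivity
  apply Nat.eq_of_mul_eq_mul_left hpos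
  calc 2 ^ v * ((2 ^ (v + 1) - 1) * _) = (2 ^ (v + 1) - 1) * (2 ^ v * _) := by ring
    _ = _ := hA.symm
    _ = _ := by ring

lemma two_pow_sub (w : ℕ) : ((2 ^ w - 1 : ℕ) : ℝ) = (2 : ℝ) ^ w - 1 := by
  rw [Nat.cast_sub Nat.one_le_two_pow]
  push_cast
  rfl

lemma mean_F_eq : ((2 : ℝ) ^ w) ^ t * mean (F : (Idx k t w → Bool) → Bool) * 2 ^ k =
    ((2 : ℝ) ^ w - 1) ^ t := by
  have h1 := congrArg (Nat.cast : ℕ → ℝ) (card_F (k := k) (t := t) (w := w))
  have h2 := congrArg (Nat.cast : ℕ → ℝ) (card_base (k := k) (t := t) (w := w))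
  push_cast [two_pow_sub] at h1 h2
  unfold mean prob
  have hpos : (0 : ℝ) < 2 ^ Fintype.card (Idx k t w) := by positivity
  rw [← mul_div_assoc, h1, div_mul_eq_mul_div, div_eq_iff hpos.ne', ← h2]
  ring

lemma totalInfluence_F (hw : 1 ≤ w) :
    totalInfluence (F : (Idx k t w → Bool) → Bool) =
      2 * mean (F : (Idx k t w → Bool) → Bool) * (k + t * w / ((2 : ℝ) ^ w - 1)) := by
  have hN : (0 : ℝ) < (2 : ℝ) ^ w - 1 := by
    have : (2 : ℝ) ^ 1 ≤ 2 ^ w := pow_le_pow_right₀ (by norm_num) hw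
    linarith
  unfold totalInfluence
  rw [Fintype.sum_sum_type]
  have h1 : ∀ a : Fin k, prob (fun x : Idx k t w → Bool => F x ≠ F (flip (Sum.inl a) x)) =
      2 * mean (F : (Idx k t w → Bool) → Bool) := by
    intro a
    unfold mean prob
    rw [card_infl_inl a]
    push_cast
    ring
  have h2 : ∀ p : Fin t × Fin w, prob (fun x : Idx k t w → Bool => F x ≠ F (flip (Sum.inr p) x)) =
      2 * mean (F : (Idx k t w → Bool) → Bool) / ((2 : ℝ) ^ w - 1) := by
    rintro ⟨b, c⟩
    have h := congrArg (Nat.cast : ℕ → ℝ) (card_infl_inr (k := k) b c)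
    push_cast [two_pow_sub] at h
    unfold mean prob
    rw [eq_div_iff hN.ne', div_mul_eq_mul_div, mul_comm (_ : ℝ) ((2 : ℝ) ^ w - 1), h]
    ring
  rw [Finset.sum_congr rfl (fun a _ => h1 a), Finset.sum_congr rfl (fun p _ => h2 p)]
  simp only [Finset.sum_const, Finset.card_univ, Fintype.card_fin, Fintype.card_prod, nsmul_eq_mul,
    Nat.cast_mul]
  ring

/-- A function depending on few coordinates differs from `F` on a set which is at least `κ` times
as large as `F⁻¹(1)`. -/
lemma junta_far (hw : 1 ≤ w) (D : ℕ) (κ : ℝ) (hκ0 : 0 ≤ κ) (hκ1 : κ ≤ 1)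
    (hD : (1 + κ) * ((2 : ℝ) ^ w - 1) ^ (t - D) ≤ ((2 : ℝ) ^ w) ^ (t - D))
    (g : (Idx k t w → Bool) → Bool) (J : Finset (Idx k t w)) (hJ : J.card ≤ D)
    (hg : DependsOn g (J : Set (Idx k t w))) :
    κ * mean (F : (Idx k t w → Bool) → Bool) ≤ prob (fun x => F x ≠ g x) := by
  classical
  have : Nonempty (Fin w) := ⟨⟨0, hw⟩⟩
  -- untouched blocks
  set T : Finset (Fin t) := Finset.univ.filter (fun b => ∀ c : Fin w, Sum.inr (b, c) ∉ J) with hT
  have hTc : t - D ≤ T.card := by
    have hsub : Tᶜ.card ≤ J.card := by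
      have hch : ∀ b ∈ Tᶜ, ∃ c : Fin w, (Sum.inr (b, c) : Idx k t w) ∈ J := by
        intro b hb
        rw [Finset.mem_compl, hT, Finset.mem_filter] at hb
        push Not at hb
        exact hb (Finset.mem_univ b)
      choose! φ hφ using hch
      apply Finset.card_le_card_of_injOn (fun b => (Sum.inr (b, φ b) : Idx k t w))
      · intro b hb
        exact hφ b hb
      · intro b _ b' _ h
        simp only [Sum.inr.injEq, Prod.mk.injEq] at h
        exact h.1
    rw [Finset.card_compl, Fintype.card_fin] at hsub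
    omega
  have hginv : ∀ b ∈ T, ∀ c : Fin w, ∀ x : Idx k t w → Bool,
      (g (flip (Sum.inr (b, c)) x) = true) ↔ (g x = true) := by
    intro b hb c x
    have : g (flip (Sum.inr (b, c)) x) = g x := by
      apply hg
      intro i hi
      apply flip_ne
      rintro rfl
      rw [hT, Finset.mem_filter] at hb
      exact hb.2 c hi
    rw [this]
  have hbl := blocks T (fun x => g x = true) hginv
  have h2N : (1 : ℝ) ≤ (2 : ℝ) ^ w := one_le_pow₀ (by norm_num)
  have hNnn : (0 : ℝ) ≤ (2 : ℝ) ^ w - 1 := by linarith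
  have hT2 : (1 + κ) * ((2 : ℝ) ^ w - 1) ^ T.card ≤ ((2 : ℝ) ^ w) ^ T.card := by
    obtain ⟨r, hr⟩ := Nat.exists_eq_add_of_le hTc
    rw [hr, pow_add, pow_add]
    calc (1 + κ) * (((2 : ℝ) ^ w - 1) ^ (t - D) * ((2 : ℝ) ^ w - 1) ^ r)
        = ((1 + κ) * ((2 : ℝ) ^ w - 1) ^ (t - D)) * ((2 : ℝ) ^ w - 1) ^ r := by ring
      _ ≤ ((2 : ℝ) ^ w) ^ (t - D) * ((2 : ℝ) ^ w) ^ r := by
          gcongr
          linarith
  have hsub1 : {x : Idx k t w → Bool | F x = true ∧ g x = true}.ncard ≤
      {x : Idx k t w → Bool | g x = true ∧ ∀ b ∈ T, Blk b x}.ncard := by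
    apply Set.ncard_le_ncard _ (Set.toFinite _)
    intro x hx
    rw [Set.mem_ofPred_eq, F_iff] at hx
    exact ⟨hx.2, fun b _ => hx.1.2 b⟩
  have hbl' := congrArg (Nat.cast : ℕ → ℝ) hbl
  push_cast [two_pow_sub] at hbl'
  have hhalf : (1 + κ) * ({x : Idx k t w → Bool | F x = true ∧ g x = true}.ncard : ℝ) ≤
      ({x : Idx k t w → Bool | g x = true}.ncard : ℝ) := by
    have h1 : ({x : Idx k t w → Bool | F x = true ∧ g x = true}.ncard : ℝ) ≤
      ({x : Idx k t w → Bool | g x = true ∧ ∀ b ∈ T, Blk b x}.ncard : ℝ) := by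
      exact_mod_cast hsub1
    have hpos : (0 : ℝ) < ((2 : ℝ) ^ w) ^ T.card := by positivity
    have hgn : (0 : ℝ) ≤ ({x : Idx k t w → Bool | g x = true}.ncard : ℝ) := by positivity
    have h2 : ((2 : ℝ) ^ w) ^ T.card *
        ((1 + κ) * ({x : Idx k t w → Bool | g x = true ∧ ∀ b ∈ T, Blk b x}.ncard : ℝ)) ≤
        ((2 : ℝ) ^ w) ^ T.card * ({x : Idx k t w → Bool | g x = true}.ncard : ℝ) := by
      calc _ = (1 + κ) * (((2 : ℝ) ^ w) ^ T.card *
            ({x : Idx k t w → Bool | g x = true ∧ ∀ b ∈ T, Blk b x}.ncard : ℝ)) := by ring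
        _ = ((1 + κ) * ((2 : ℝ) ^ w - 1) ^ T.card) *
            ({x : Idx k t w → Bool | g x = true}.ncard : ℝ) := by rw [hbl']; ring
        _ ≤ _ := mul_le_mul_of_nonneg_right hT2 hgn
    have h3 := le_of_mul_le_mul_left h2 hpos
    have h4 : (1 + κ) * ({x : Idx k t w → Bool | F x = true ∧ g x = true}.ncard : ℝ) ≤
        (1 + κ) * ({x : Idx k t w → Bool | g x = true ∧ ∀ b ∈ T, Blk b x}.ncard : ℝ) :=
      mul_le_mul_of_nonneg_left h1 (by linarith)
    linarith
  -- splitting the sets
  have e1 : {x : Idx k t w → Bool | F x = true}.ncard =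
      {x : Idx k t w → Bool | F x = true ∧ g x = true}.ncard +
      {x : Idx k t w → Bool | F x = true ∧ g x = false}.ncard := by
    rw [← Set.ncard_union_eq]
    · congr 1
      ext x
      simp only [Set.mem_ofPred_eq, Set.mem_union]
      cases g x <;> simp
    · rw [Set.disjoint_left]
      rintro x ⟨-, h1⟩ ⟨-, h2⟩
      rw [h1] at h2
      exact absurd h2 (by decide)
  have e2 : {x : Idx k t w → Bool | g x = true}.ncard =
      {x : Idx k t w → Bool | F x = true ∧ g x = true}.ncard +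
      {x : Idx k t w → Bool | F x = false ∧ g x = true}.ncard := by
    rw [← Set.ncard_union_eq]
    · congr 1
      ext x
      simp only [Set.mem_ofPred_eq, Set.mem_union]
      cases F x <;> simp
    · rw [Set.disjoint_left]
      rintro x ⟨h1, -⟩ ⟨h2, -⟩
      rw [h1] at h2
      exact absurd h2 (by decide)
  have e3 : {x : Idx k t w → Bool | F x ≠ g x}.ncard =
      {x : Idx k t w → Bool | F x = true ∧ g x = false}.ncard +
      {x : Idx k t w → Bool | F x = false ∧ g x = true}.ncard := by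
    rw [← Set.ncard_union_eq]
    · congr 1
      ext x
      simp only [Set.mem_ofPred_eq, Set.mem_union]
      cases F x <;> cases g x <;> simp
    · rw [Set.disjoint_left]
      rintro x ⟨h1, -⟩ ⟨h2, -⟩
      rw [h1] at h2
      exact absurd h2 (by decide)
  unfold mean prob
  rw [← mul_div_assoc]
  apply div_le_div_of_nonneg_right _ (by positivity)
  rw [e3, e1]
  rw [e2] at hhalf
  push_cast at hhalf ⊢
  have h5 : κ * ({x : Idx k t w → Bool | F x = true ∧ g x = false}.ncard : ℝ) ≤
      ({x : Idx k t w → Bool | F x = true ∧ g x = false}.ncard : ℝ) := by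
    have : (0 : ℝ) ≤ ({x : Idx k t w → Bool | F x = true ∧ g x = false}.ncard : ℝ) := by positivity
    nlinarith
  linarith

end tribes

section transfer

set_option linter.unusedSectionVars false

variable {ι κ : Type*} [Fintype ι] [Fintype κ] [DecidableEq ι] [DecidableEq κ] (e : ι ≃ κ)

lemma prob_transfer (P : (ι → Bool) → Prop) :
    prob (fun y : κ → Bool => P (y ∘ e)) = prob P := by
  unfold prob
  rw [Fintype.card_congr e]
  congr 2
  have : {x : ι → Bool | P x} = (fun y : κ → Bool => y ∘ e) '' {y : κ → Bool | P (y ∘ e)} := by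
    ext x
    simp only [Set.mem_ofPred_eq, Set.mem_image]
    constructor
    · intro h
      have hx : (x ∘ e.symm) ∘ e = x := by
        funext i
        simp
      exact ⟨x ∘ e.symm, by rw [hx]; exact h, hx⟩
    · rintro ⟨y, hy, rfl⟩
      exact hy
  rw [this, Set.ncard_image_of_injective]
  exact e.surjective.injective_comp_right

lemma flip_comp (i : ι) (y : κ → Bool) : (flip (e i) y) ∘ e = flip i (y ∘ e) := by
  funext j
  by_cases h : j = i
  · subst h
    simp
  · have h' : e j ≠ e i := fun hh => h (e.injective hh)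
    simp [h, h']

lemma totalInfluence_transfer (f : (ι → Bool) → Bool) :
    totalInfluence (fun y : κ → Bool => f (y ∘ e)) = totalInfluence f := by
  unfold totalInfluence
  rw [← e.sum_comp]
  apply Finset.sum_congr rfl
  intro i _
  rw [← prob_transfer e (fun x => f x ≠ f (flip i x))]
  simp only [flip_comp]

end transfer

lemma exists_w (r δ B : ℝ) (hr : r < 1) (hδ : 0 < δ) :
    ∃ w : ℕ, 1 ≤ w ∧ 3 + 2 * δ ≤ δ * 2 ^ w ∧ B * (2 : ℝ) ^ (r * w) < δ * 2 ^ w := by
  have h1 : Filter.Tendsto (fun w : ℕ => (2 : ℝ) ^ w) Filter.atTop Filter.atTop :=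
    tendsto_pow_atTop_atTop_of_one_lt (by norm_num)
  have hb : 1 < (2 : ℝ) ^ (1 - r) := Real.one_lt_rpow (by norm_num) (by linarith)
  have h2 : Filter.Tendsto (fun w : ℕ => ((2 : ℝ) ^ (1 - r)) ^ w) Filter.atTop Filter.atTop :=
    tendsto_pow_atTop_atTop_of_one_lt hb
  have e1 := h1.eventually_ge_atTop ((3 + 2 * δ) / δ)
  have e2 := h2.eventually_gt_atTop (B / δ)
  have e3 := Filter.eventually_ge_atTop (1 : ℕ)
  obtain ⟨w, ⟨hw1, hw2⟩, hw3⟩ := ((e1.and e2).and e3).exists
  refine ⟨w, hw3, ?_, ?_⟩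
  · rw [div_le_iff₀ hδ] at hw1
    linarith
  · rw [div_lt_iff₀ hδ] at hw2
    have hpos : (0 : ℝ) < 2 ^ (r * w) := Real.rpow_pos_of_pos (by norm_num) _
    have hprod : ((2 : ℝ) ^ (1 - r)) ^ w * 2 ^ (r * w) = 2 ^ w := by
      rw [← Real.rpow_natCast, ← Real.rpow_mul (by norm_num), ← Real.rpow_add (by norm_num),
        ← Real.rpow_natCast]
      congr 1
      ring
    calc B * (2 : ℝ) ^ (r * w) < (((2 : ℝ) ^ (1 - r)) ^ w * δ) * 2 ^ (r * w) :=
          mul_lt_mul_of_pos_right hw2 hpos
      _ = δ * (((2 : ℝ) ^ (1 - r)) ^ w * 2 ^ (r * w)) := by ring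
      _ = δ * 2 ^ w := by rw [hprod]

/-- For every `ε ∈ (0, 1)`, every real `c < ε / ln (1 + ε)` (for instance `c = 1`), every real `C`
and every natural number `k₀` there are `M > 0`, `n ≥ 1` and `f : {0,1}^n → {0,1}` with
`0 < μ(f) ≤ 2^{-k₀}` and `I(f) ≤ 2 μ(f) (log₂ (1/μ(f)) + M)` such that every `g` with
`Pr[f ≠ g] ≤ ε μ(f)` depends on more than `C log₂ (1/μ(f)) 2^{c M / ε}` coordinates. -/
theorem result (ε : ℝ) (hε0 : 0 < ε) (hε1 : ε < 1) (c : ℝ) (hc : c < ε / Real.log (1 + ε))
    (C : ℝ) (k₀ : ℕ) :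
    ∃ (M : ℝ) (n : ℕ) (f : (Fin n → Bool) → Bool),
      0 < M ∧ 1 ≤ n ∧ 0 < mean f ∧ mean f ≤ (1 / 2) ^ k₀ ∧
      totalInfluence f ≤ 2 * mean f * (Real.logb 2 (1 / mean f) + M) ∧
      ∀ g : (Fin n → Bool) → Bool, prob (fun x => f x ≠ g x) ≤ ε * mean f →
        ∀ J : Finset (Fin n), DependsOn g (J : Set (Fin n)) →
          C * Real.logb 2 (1 / mean f) * 2 ^ (c * M / ε) < (J.card : ℝ) := by
  have hl2 : 0 < Real.log 2 := Real.log_pos (by norm_num)
  have hl2' : Real.log 2 < 1 := by
    have := Real.log_two_lt_d9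
    linarith
  have hl2'' : 1 / 2 < Real.log 2 := by
    have := Real.log_two_gt_d9
    linarith
  have hle0 : 0 < Real.log (1 + ε) := Real.log_pos (by linarith)
  have hle1 : Real.log (1 + ε) < ε := by
    have := Real.log_lt_sub_one_of_pos (x := 1 + ε) (by linarith) (by linarith)
    linarith
  set c' : ℝ := max c 1 with hc'def
  have hc'1 : 1 ≤ c' := le_max_right _ _
  have hcc' : c ≤ c' := le_max_left _ _
  have hc' : c' < ε / Real.log (1 + ε) := by
    apply max_lt hc
    rw [lt_div_iff₀ hle0]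
    linarith
  have hc'2 : c' * Real.log (1 + ε) < ε := by
    rwa [lt_div_iff₀ hle0] at hc'
  -- choice of `κ` slightly larger than `ε`
  set η : ℝ := min (1 - ε) ((ε - c' * Real.log (1 + ε)) / (2 * c')) with hη
  have hη0 : 0 < η := by
    apply lt_min (by linarith)
    apply div_pos
    · linarith
    · positivity
  have hη1 : η ≤ 1 - ε := min_le_left _ _
  have hη2 : c' * η ≤ (ε - c' * Real.log (1 + ε)) / 2 := by
    calc c' * η ≤ c' * ((ε - c' * Real.log (1 + ε)) / (2 * c')) :=
          mul_le_mul_of_nonneg_left (min_le_right _ _) (by linarith)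
      _ = _ := by field_simp
  set κ : ℝ := ε + η with hκ
  have hεκ : ε < κ := by linarith
  have hκ0 : 0 < κ := by linarith
  have hκ1 : κ ≤ 1 := by linarith
  set ℓ : ℝ := Real.log (1 + κ) with hℓ
  have hℓ0 : 0 < ℓ := Real.log_pos (by linarith)
  have hℓ2 : ℓ ≤ Real.log 2 := Real.log_le_log (by linarith) (by linarith)
  have hℓ1 : ℓ ≤ Real.log (1 + ε) + η := by
    have h1 : 1 + κ = (1 + ε) * ((1 + κ) / (1 + ε)) := by
      field_simp
    have h2 : Real.log ((1 + κ) / (1 + ε)) ≤ η := by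
      have h3 := Real.log_le_sub_one_of_pos (x := (1 + κ) / (1 + ε)) (by positivity)
      have h4 : (1 + κ) / (1 + ε) - 1 = η / (1 + ε) := by
        rw [hκ]
        field_simp
        ring
      have h5 : η / (1 + ε) ≤ η := div_le_self hη0.le (by linarith)
      linarith
    rw [hℓ, h1, Real.log_mul (by positivity) (by positivity)]
    linarith
  set lam : ℝ := c' * ℓ with hlam
  have hlam1 : lam < ε := by
    have h1 : c' * ℓ ≤ c' * (Real.log (1 + ε) + η) :=
      mul_le_mul_of_nonneg_left hℓ1 (by linarith)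
    rw [mul_add] at h1
    rw [hlam]
    linarith
  have hlam0 : 0 < lam := by positivity
  set δ : ℝ := (ε - lam) / (8 * c') with hδdef
  have hδ : 0 < δ := by
    apply div_pos
    · linarith
    · positivity
  have hδ8 : δ ≤ 1 / 8 := by
    rw [hδdef, div_le_div_iff₀ (by positivity) (by norm_num)]
    nlinarith
  set L : ℝ := ℓ + 2 * δ with hL
  have hL0 : 0 < L := by positivity
  have hcL : c' * L = (ε + 3 * lam) / 4 := by
    rw [hL, mul_add, ← hlam, hδdef]
    field_simp
    ring
  set r : ℝ := c' * L / ε with hr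
  have hr1 : r < 1 := by
    rw [hr, div_lt_one hε0, hcL]
    linarith
  obtain ⟨w, hw1, hwA, hwB⟩ := exists_w r δ (|C| * (k₀ + 3)) hr1 hδ
  set N : ℝ := (2 : ℝ) ^ w with hN
  have hN2 : 2 ≤ N := by
    calc (2 : ℝ) = 2 ^ 1 := by norm_num
      _ ≤ 2 ^ w := pow_le_pow_right₀ (by norm_num) hw1
  have hN1 : 0 < N - 1 := by linarith
  set t₀ : ℕ := ⌈N * ℓ⌉₊ with ht₀
  set D : ℕ := ⌈δ * N⌉₊ with hDdef
  set t : ℕ := t₀ + D with ht
  have ht₀le : (t₀ : ℝ) < N * ℓ + 1 := Nat.ceil_lt_add_one (by positivity)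
  have ht₀ge : N * ℓ ≤ (t₀ : ℝ) := Nat.le_ceil _
  have hDle : (D : ℝ) < δ * N + 1 := Nat.ceil_lt_add_one (by positivity)
  have hDge : δ * N ≤ (D : ℝ) := Nat.le_ceil _
  have htL : (t : ℝ) ≤ (N - 1) * L := by
    rw [ht]
    push_cast
    rw [hL]
    nlinarith
  have ht0 : (0 : ℝ) < (t : ℝ) := by
    rw [ht]
    push_cast
    have : 0 < N * ℓ := by positivity
    have : (0 : ℝ) ≤ (D : ℝ) := by positivity
    linarith
  have htD : t - D = t₀ := by rw [ht]; omega
  -- the key numerical inequality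
  have hkey : (1 + κ) * (N - 1) ^ (t - D) ≤ N ^ (t - D) := by
    rw [htD]
    have h1 : (1 - 1 / N) ≤ Real.exp (-(1 / N)) := by
      have := Real.add_one_le_exp (-(1 / N))
      linarith
    have h2 : 0 ≤ 1 - 1 / N := by
      rw [sub_nonneg, div_le_one (by linarith)]
      linarith
    have h3 : (1 - 1 / N) ^ t₀ ≤ 1 / (1 + κ) := by
      calc (1 - 1 / N) ^ t₀ ≤ (Real.exp (-(1 / N))) ^ t₀ := pow_le_pow_left₀ h2 h1 _
        _ = Real.exp (-(t₀ / N)) := by
            rw [← Real.exp_nat_mul]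
            congr 1
            ring
        _ ≤ Real.exp (-ℓ) := by
            apply Real.exp_le_exp.mpr
            rw [neg_le_neg_iff, le_div_iff₀ (by linarith)]
            linarith
        _ = 1 / (1 + κ) := by rw [Real.exp_neg, hℓ, Real.exp_log (by linarith), one_div]
    have h3' : (1 + κ) * (1 - 1 / N) ^ t₀ ≤ 1 := by
      rw [le_div_iff₀ (by linarith)] at h3
      linarith
    have h4 : N - 1 = N * (1 - 1 / N) := by
      field_simp
    rw [h4, mul_pow]
    have h5 : 0 ≤ N ^ t₀ := by positivity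
    calc (1 + κ) * (N ^ t₀ * (1 - 1 / N) ^ t₀) = N ^ t₀ * ((1 + κ) * (1 - 1 / N) ^ t₀) := by ring
      _ ≤ N ^ t₀ * 1 := mul_le_mul_of_nonneg_left h3' h5
      _ = N ^ t₀ := mul_one _
  -- the function
  let e : Idx k₀ t w ≃ Fin (Fintype.card (Idx k₀ t w)) := Fintype.equivFin _
  set f : (Fin (Fintype.card (Idx k₀ t w)) → Bool) → Bool :=
    fun y => (F : (Idx k₀ t w → Bool) → Bool) (y ∘ e) with hf
  have hmean : mean f = mean (F : (Idx k₀ t w → Bool) → Bool) :=
    prob_transfer e (fun x => F x = true)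
  have hmF := mean_F_eq (k := k₀) (t := t) (w := w)
  rw [← hN, ← hmean] at hmF
  have hμeq : mean f = (1 - 1 / N) ^ t * (1 / 2) ^ k₀ := by
    have h4 : N - 1 = N * (1 - 1 / N) := by
      field_simp
    rw [h4, mul_pow] at hmF
    have hNt : N ^ t ≠ 0 := by positivity
    have h5 : mean f * 2 ^ k₀ = (1 - 1 / N) ^ t := by
      apply mul_left_cancel₀ hNt
      rw [← hmF]
      ring
    rw [← h5, one_div, inv_pow]
    field_simp
  have hq0 : 0 < 1 - 1 / N := by
    rw [sub_pos, div_lt_one (by linarith)]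
    linarith
  have hq1 : 1 - 1 / N ≤ 1 := by
    have : 0 ≤ 1 / N := by positivity
    linarith
  have hμ0 : 0 < mean f := by rw [hμeq]; positivity
  have hμle : mean f ≤ (1 / 2) ^ k₀ := by
    rw [hμeq]
    have : (1 - 1 / N) ^ t ≤ 1 := pow_le_one₀ hq0.le hq1
    have h2 : (0 : ℝ) ≤ (1 / 2) ^ k₀ := by positivity
    nlinarith
  set M : ℝ := t * w / (N - 1) with hM
  have hM0 : 0 < M := by
    have : (0 : ℝ) < (w : ℝ) := by exact_mod_cast hw1
    positivity
  -- logarithm of the mean
  have hlog : Real.log (1 / mean f) = k₀ * Real.log 2 + t * (-Real.log (1 - 1 / N)) := by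
    have hl12 : Real.log (1 / 2 : ℝ) = -Real.log 2 := by rw [one_div, Real.log_inv]
    rw [show (1 : ℝ) / mean f = (mean f)⁻¹ from one_div _, Real.log_inv, hμeq,
      Real.log_mul (by positivity) (by positivity), Real.log_pow, Real.log_pow, hl12]
    ring
  have hlq0 : 0 ≤ -Real.log (1 - 1 / N) := by
    rw [neg_nonneg]
    exact Real.log_nonpos hq0.le hq1
  have hlq1 : -Real.log (1 - 1 / N) ≤ 1 / (N - 1) := by
    have h1 := Real.log_le_sub_one_of_pos (inv_pos.mpr hq0)
    rw [Real.log_inv] at h1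
    have h2 : (1 - 1 / N)⁻¹ - 1 = 1 / (N - 1) := by
      field_simp
      ring
    linarith
  have hlogb_ge : (k₀ : ℝ) ≤ Real.logb 2 (1 / mean f) := by
    rw [Real.logb, hlog, le_div_iff₀ hl2]
    nlinarith
  have hlogb_le : Real.logb 2 (1 / mean f) ≤ k₀ + 3 := by
    rw [Real.logb, hlog, div_le_iff₀ hl2]
    have h1 : (t : ℝ) * (-Real.log (1 - 1 / N)) ≤ L := by
      calc (t : ℝ) * (-Real.log (1 - 1 / N)) ≤ ((N - 1) * L) * (1 / (N - 1)) := by
            gcongr
        _ = L := by field_simp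
    have h2 : L ≤ 3 * Real.log 2 := by rw [hL]; linarith
    nlinarith
  have hlogb0 : 0 ≤ Real.logb 2 (1 / mean f) := le_trans (by positivity) hlogb_ge
  refine ⟨M, Fintype.card (Idx k₀ t w), f, hM0, ?_, hμ0, hμle, ?_, ?_⟩
  · rw [Fintype.card_sum, Fintype.card_prod, Fintype.card_fin, Fintype.card_fin, Fintype.card_fin]
    have : 1 ≤ t := by
      have : (0 : ℝ) < (t : ℝ) := ht0
      exact_mod_cast this
    nlinarith
  · rw [hf, totalInfluence_transfer e, totalInfluence_F hw1, ← hN, ← hmean, ← hM]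
    apply mul_le_mul_of_nonneg_left _ (by positivity)
    linarith
  · intro g hg J hJ
    have hJD : D < J.card := by
      by_contra hcon
      push Not at hcon
      set g' : (Idx k₀ t w → Bool) → Bool := fun x => g (x ∘ e.symm) with hg'
      have hdep : DependsOn g' ((J.map e.symm.toEmbedding : Finset (Idx k₀ t w)) :
          Set (Idx k₀ t w)) := by
        intro x y hxy
        apply hJ
        intro j hj
        apply hxy
        simp only [Finset.coe_map, Equiv.coe_toEmbedding, Set.mem_image, Finset.mem_coe]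
        exact ⟨j, hj, rfl⟩
      have hfar := junta_far (k := k₀) (t := t) hw1 D κ hκ0.le hκ1 (by rw [← hN]; exact hkey) g'
        (J.map e.symm.toEmbedding) (by rw [Finset.card_map]; exact hcon) hdep
      rw [← hmean, ← prob_transfer e (fun x => F x ≠ g' x)] at hfar
      have hgg : ∀ y : Fin (Fintype.card (Idx k₀ t w)) → Bool, g' (y ∘ e) = g y := by
        intro y
        simp only [hg']
        congr 1
        funext i
        simp
      simp only [hgg] at hfar
      have : κ * mean f ≤ ε * mean f := hfar.trans hg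
      nlinarith
    have hJD' : (D : ℝ) < (J.card : ℝ) := by exact_mod_cast hJD
    have hexp : c * M / ε ≤ r * w := by
      have h1 : c * M / ε ≤ c' * M / ε := by gcongr
      have h2 : M ≤ L * w := by
        rw [hM, div_le_iff₀ hN1]
        have : (0 : ℝ) ≤ (w : ℝ) := by positivity
        nlinarith
      calc c * M / ε ≤ c' * M / ε := h1
        _ ≤ c' * (L * w) / ε := by gcongr
        _ = r * w := by rw [hr]; ring
    have hp : (2 : ℝ) ^ (c * M / ε) ≤ 2 ^ (r * w) :=
      Real.rpow_le_rpow_of_exponent_le (by norm_num) hexp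
    calc C * Real.logb 2 (1 / mean f) * 2 ^ (c * M / ε)
        ≤ |C| * (k₀ + 3) * 2 ^ (r * w) := by
          have h1 : C * Real.logb 2 (1 / mean f) ≤ |C| * (k₀ + 3) := by
            calc C * Real.logb 2 (1 / mean f) ≤ |C| * Real.logb 2 (1 / mean f) := by
                  gcongr
                  exact le_abs_self C
              _ ≤ |C| * (k₀ + 3) := by gcongr
          have h2 : (0 : ℝ) ≤ 2 ^ (c * M / ε) := by positivity
          calc _ ≤ |C| * (k₀ + 3) * 2 ^ (c * M / ε) := mul_le_mul_of_nonneg_right h1 h2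
            _ ≤ _ := by gcongr
      _ < δ * N := hwB
      _ ≤ D := hDge
      _ < J.card := hJD'

end Pool.Agent.Results.MP_5036fd_co.TribesDisproof
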